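import Pool.Agent.NH87.TD.Defs

/-!
# Total domination and sub-total domination: basic facts
-/

namespace Pool.Agent.NH87.TD

theorem take_sum_le (l : List ℕ) (k θ : ℕ) :
    (l.take k).sum ≤ k * θ + (l.map fun a => a - θ).sum := by
  induction l generalizing k with
  | nil => simp
  | cons a l ih =>
    cases k with
    | zero => simp
    | succ k =>
      have := ih k
      simp only [List.take_succ_cons, List.sum_cons, List.map_cons]
      rw [Nat.succ_mul]
      omega

theorem map_sub_zero {l : List ℕ} {θ : ℕ} (h : ∀ a ∈ l, a ≤ θ) :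
    (l.map fun a => a - θ).sum = 0 := by
  apply List.sum_eq_zero
  intro x hx
  rw [List.mem_map] at hx
  obtain ⟨a, ha, rfl⟩ := hx
  have := h a ha
  omega

/-- the sum of the `k` largest members -/
theorem take_sum_eq {l : List ℕ} (hl : l.Pairwise (fun a b => b ≤ a)) {k : ℕ} (hk : k ≤ l.length) :
    ∃ θ, (l.take k).sum = k * θ + (l.map fun a => a - θ).sum := by
  induction l generalizing k with
  | nil =>
    simp only [List.length_nil, Nat.le_zero] at hk
    subst hk
    exact ⟨0, by simp⟩
  | cons a l ih =>
    rw [List.pairwise_cons] at hl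
    cases k with
    | zero =>
      refine ⟨a, ?_⟩
      rw [map_sub_zero]
      · simp
      · intro b hb
        rcases List.mem_cons.1 hb with rfl | hb
        · exact le_rfl
        · exact hl.1 b hb
    | succ k =>
      have hk' : k ≤ l.length := by simpa using hk
      rcases hk'.eq_or_lt with h | h
      · refine ⟨0, ?_⟩
        have e : (a :: l).take (k + 1) = a :: l := by
          rw [List.take_of_length_le]
          simp [h]
        rw [e]
        simp
      · obtain ⟨θ, hθ⟩ := ih hl.2 hk'
        by_cases hle : θ ≤ a
        · refine ⟨θ, ?_⟩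
          simp only [List.take_succ_cons, List.sum_cons, List.map_cons]
          rw [hθ, Nat.succ_mul]
          omega
        · refine ⟨a, ?_⟩
          have h1 : (l.map fun b => b - θ).sum = 0 := map_sub_zero fun b hb => by
            have := hl.1 b hb
            omega
          have h2 : (l.map fun b => b - a).sum = 0 := map_sub_zero fun b hb => hl.1 b hb
          have h3 := take_sum_le l k a
          rw [h2, Nat.add_zero] at h3
          rw [h1, Nat.add_zero] at hθ
          have h4 : k * a ≤ k * θ := Nat.mul_le_mul_left _ (by omega)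
          have h5 : k * a = k * θ := by omega
          simp only [List.take_succ_cons, List.sum_cons, List.map_cons]
          rw [hθ, h2, Nat.succ_mul]
          omega

section

variable {n : ℕ} (G : SimpleGraph (Fin n))

theorem degSeq_pairwise : (degSeq G).Pairwise fun a b => b ≤ a := by
  classical
  unfold degSeq
  have h := List.pairwise_mergeSort (le := fun a b : ℕ => decide (b ≤ a))
    (fun a b c hab hbc => by simp only [decide_eq_true_eq] at *; omega)
    (fun a b => by simp only [Bool.or_eq_true, decide_eq_true_eq]; omega)
    (List.ofFn fun v => G.degree v)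
  exact h.imp fun hab => by simpa using hab

open Classical in
theorem degSeq_perm : (degSeq G).Perm (List.ofFn fun v => G.degree v) := by
  unfold degSeq
  convert List.mergeSort_perm _ _

theorem length_degSeq : (degSeq G).length = n := by
  classical
  rw [(degSeq_perm G).length_eq, List.length_ofFn]

open Classical in
theorem sum_degSeq (f : ℕ → ℕ) : ((degSeq G).map f).sum = ∑ v, f (G.degree v) := by
  rw [((degSeq_perm G).map f).sum_eq, List.map_ofFn, List.sum_ofFn]
  rfl

open Classical in
/-- The sum of the degrees of `k` vertices is at most the sum of the `k` largest degrees. -/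
theorem sum_le_take (S : Finset (Fin n)) :
    ∑ v ∈ S, G.degree v ≤ ((degSeq G).take S.card).sum := by
  have hk : S.card ≤ (degSeq G).length := by
    rw [length_degSeq]
    simpa using S.card_le_univ
  obtain ⟨θ, hθ⟩ := take_sum_eq (degSeq_pairwise G) hk
  rw [hθ, sum_degSeq]
  calc ∑ v ∈ S, G.degree v ≤ ∑ v ∈ S, (θ + (G.degree v - θ)) :=
        Finset.sum_le_sum fun v _ => by omega
    _ = S.card * θ + ∑ v ∈ S, (G.degree v - θ) := by
        rw [Finset.sum_add_distrib, Finset.sum_const, smul_eq_mul]
    _ ≤ S.card * θ + ∑ v, (G.degree v - θ) :=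
        Nat.add_le_add_left (Finset.sum_le_sum_of_subset (Finset.subset_univ _)) _

open Classical in
theorem le_sum_of_tds {S : Finset (Fin n)} (hS : IsTDS G S) : n ≤ ∑ v ∈ S, G.degree v := by
  have h1 : (Finset.univ : Finset (Fin n)) ⊆ S.biUnion fun w => G.neighborFinset w := by
    intro v _
    obtain ⟨w, hw, hvw⟩ := hS v
    rw [Finset.mem_biUnion]
    exact ⟨w, hw, (G.mem_neighborFinset w v).2 hvw.symm⟩
  have h2 := Finset.card_le_card h1
  rw [Finset.card_univ, Fintype.card_fin] at h2
  refine h2.trans (Finset.card_biUnion_le.trans_eq ?_)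
  refine Finset.sum_congr rfl fun v _ => ?_
  exact G.card_neighborFinset_eq_degree v

theorem tds_mem {S : Finset (Fin n)} (hS : IsTDS G S) : n ≤ ((degSeq G).take S.card).sum := by
  classical
  exact (le_sum_of_tds G hS).trans (sum_le_take G S)

theorem exists_tds (h : NoIsolated G) : ∃ S, IsTDS G S ∧ S.card = gammaT G := by
  have hne : {k | ∃ S, IsTDS G S ∧ S.card = k}.Nonempty :=
    ⟨_, Finset.univ, fun v => by
      obtain ⟨w, hw⟩ := h v
      exact ⟨w, Finset.mem_univ _, hw⟩, rfl⟩
  exact Nat.sInf_mem hne

theorem gammaT_le {S : Finset (Fin n)} (hS : IsTDS G S) : gammaT G ≤ S.card :=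
  Nat.sInf_le ⟨S, hS, rfl⟩

theorem subT_le_gammaT (h : NoIsolated G) : subT G ≤ gammaT G := by
  obtain ⟨S, hS, hc⟩ := exists_tds G h
  rw [← hc]
  exact Nat.sInf_le (tds_mem G hS)

theorem take_sum_mono (l : List ℕ) {i j : ℕ} (hij : i ≤ j) : (l.take i).sum ≤ (l.take j).sum := by
  induction l generalizing i j with
  | nil => simp
  | cons a l ih =>
    cases i with
    | zero => simp
    | succ i =>
      cases j with
      | zero => omega
      | succ j =>
        simp only [List.take_succ_cons, List.sum_cons]
        have := ih (i := i) (j := j) (by omega)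
        omega

theorem le_subT {k : ℕ} (h : NoIsolated G) (hk : ((degSeq G).take k).sum < n) :
    k + 1 ≤ subT G := by
  obtain ⟨S, hS, hc⟩ := exists_tds G h
  have hne : {k | n ≤ ((degSeq G).take k).sum}.Nonempty := ⟨_, tds_mem G hS⟩
  have h1 : n ≤ ((degSeq G).take (subT G)).sum := Nat.sInf_mem hne
  by_contra hlt
  have h2 := take_sum_mono (degSeq G) (i := subT G) (j := k) (by omega)
  omega

end

end Pool.Agent.NH87.TD
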