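import Pool.Agent.H671R2.ZDefs

/-!
# Total domination and sub-total domination: definitions
-/

namespace Pool.Agent.NH87.TD

open Pool.Agent.NPC Pool.Agent.NPC.R671

/-- `S` is a total dominating set: every vertex has a neighbour in `S`. -/
def IsTDS {n : ℕ} (G : SimpleGraph (Fin n)) (S : Finset (Fin n)) : Prop := ∀ v, ∃ w ∈ S, G.Adj v w

/-- The total domination number. -/
noncomputable def gammaT {n : ℕ} (G : SimpleGraph (Fin n)) : ℕ :=
  sInf {k | ∃ S, IsTDS G S ∧ S.card = k}

open Classical in
/-- The degree sequence in non-increasing order. -/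
noncomputable def degSeq {n : ℕ} (G : SimpleGraph (Fin n)) : List ℕ :=
  (List.ofFn fun v => G.degree v).mergeSort fun a b => decide (b ≤ a)

/-- The sub-total domination number: the least `k` such that the sum of the `k` largest degrees is
at least the number of vertices. -/
noncomputable def subT {n : ℕ} (G : SimpleGraph (Fin n)) : ℕ :=
  sInf {k | n ≤ ((degSeq G).take k).sum}

/-- No vertex is isolated. -/
def NoIsolated {n : ℕ} (G : SimpleGraph (Fin n)) : Prop := ∀ v, ∃ w, G.Adj v w

/-- TDS-EQ: given (the adjacency matrix of) a graph without isolated vertices, is its total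
domination number equal to its sub-total domination number? -/
def TDSEq (M : List (List Bool)) : Prop :=
  ∃ (n : ℕ) (G : SimpleGraph (Fin n)), adjMatrix G = M ∧ NoIsolated G ∧ gammaT G = subT G

end Pool.Agent.NH87.TD
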