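import Pool.Agent.NH87.TD.Basic
import Pool.Agent.H671R2.OOF.NP

/-!
# TDS-EQ is in `NP`
-/

namespace Pool.Agent.NH87.TD

open Pool.Agent.NPC Pool.Agent.NPC.R671 Pool.Agent.H671R2.Ord Pool.Agent.H671R2.OOF

/-- the degree of a vertex, from the matrix -/
def dg (M : List (List Bool)) (i : ℕ) : ℕ :=
  ((List.range M.length).filter (fun j => me M i j)).length

/-- every vertex has a neighbour in the list -/
def dom (M : List (List Bool)) (l : List ℕ) : Bool :=
  (List.range M.length).all (fun i => l.any (fun a => decide (a < M.length) && me M i a))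

/-- the bound for the sum of the largest degrees -/
def bd (M : List (List Bool)) (k θ : ℕ) : ℕ :=
  k * θ + ((List.range M.length).map (fun i => dg M i - θ)).sum

/-- the verifier -/
def vf (x : List (List Bool) × (List ℕ × ℕ)) : Bool :=
  wf x.1 && (dom x.1 x.2.1 && ((x.2.1.all (fun a => decide (a ≤ x.1.length)) &&
    (decide (x.2.1.length ≤ x.1.length) && decide (x.2.2 ≤ x.1.length))) &&
    (decide (x.2.1.length = 0) || decide (bd x.1 (x.2.1.length - 1) x.2.2 < x.1.length))))

open Classical in
theorem dg_eq {n : ℕ} (G : SimpleGraph (Fin n)) (i : Fin n) : dg (adjMatrix G) i = G.degree i := by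
  unfold dg
  rw [length_adjMatrix, ← List.toFinset_card_of_nodup ((List.nodup_range).filter _),
    ← SimpleGraph.card_neighborFinset_eq_degree, ← Finset.card_image_of_injective _
      (Fin.val_injective (n := n))]
  congr 1
  ext j
  simp only [List.mem_toFinset, List.mem_filter, List.mem_range, Finset.mem_image,
    SimpleGraph.mem_neighborFinset]
  constructor
  · rintro ⟨hj, h⟩
    exact ⟨⟨j, hj⟩, (me_adj G i ⟨j, hj⟩).1 h, rfl⟩
  · rintro ⟨w, h, rfl⟩
    exact ⟨w.isLt, (me_adj G i w).2 h⟩

theorem bd_eq {n : ℕ} (G : SimpleGraph (Fin n)) (k θ : ℕ) :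
    bd (adjMatrix G) k θ = k * θ + ((degSeq G).map fun a => a - θ).sum := by
  classical
  unfold bd
  congr 1
  have h2 : (List.range (adjMatrix G).length).map (fun i => dg (adjMatrix G) i - θ) =
      List.ofFn (fun i : Fin n => G.degree i - θ) := by
    rw [length_adjMatrix]
    apply List.ext_getElem
    · simp
    · intro i h1 h2
      rw [List.getElem_map, List.getElem_range, List.getElem_ofFn]
      have := dg_eq G ⟨i, by simpa using h2⟩
      simp only at this
      rw [this]
  have h1 : ((degSeq G).map fun a => a - θ).sum = ∑ v, (G.degree v - θ) := by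
    rw [((degSeq_perm G).map _).sum_eq, List.map_ofFn, List.sum_ofFn]
    rfl
  rw [h1, h2, List.sum_ofFn]

theorem dom_iff {n : ℕ} (G : SimpleGraph (Fin n)) (l : List ℕ) :
    dom (adjMatrix G) l = true ↔ IsTDS G (Finset.univ.filter fun v : Fin n => (v : ℕ) ∈ l) := by
  simp only [dom, length_adjMatrix, List.all_eq_true, List.mem_range, List.any_eq_true,
    Bool.and_eq_true, decide_eq_true_eq, IsTDS, Finset.mem_filter, Finset.mem_univ, true_and]
  constructor
  · intro h v
    obtain ⟨a, ha, han, hm⟩ := h v v.isLt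
    exact ⟨⟨a, han⟩, ha, (me_adj G v ⟨a, han⟩).1 hm⟩
  · intro h i hi
    obtain ⟨w, hw, hvw⟩ := h ⟨i, hi⟩
    exact ⟨w, hw, w.isLt, (me_adj G ⟨i, hi⟩ w).2 hvw⟩

theorem card_filter_mem_le {n : ℕ} (l : List ℕ) :
    (Finset.univ.filter fun v : Fin n => (v : ℕ) ∈ l).card ≤ l.length := by
  classical
  rw [← Finset.card_image_of_injective _ (Fin.val_injective (n := n))]
  refine (Finset.card_le_card (t := l.toFinset) ?_).trans (List.toFinset_card_le _)
  intro x hx
  obtain ⟨v, hv, rfl⟩ := Finset.mem_image.1 hx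
  exact List.mem_toFinset.2 (Finset.mem_filter.1 hv).2

theorem tds_iff_cert (M : List (List Bool)) : TDSEq M ↔ ∃ w, vf (M, w) = true := by
  classical
  constructor
  · rintro ⟨n, G, rfl, h0, h⟩
    obtain ⟨S, hS, hc⟩ := exists_tds G h0
    have hSn : S.card ≤ n := by simpa using S.card_le_univ
    obtain ⟨θ, hθn, hθ⟩ : ∃ θ ≤ n, S.card = 0 ∨ bd (adjMatrix G) (S.card - 1) θ < n := by
      rcases Nat.eq_zero_or_pos S.card with h1 | h1
      · exact ⟨0, Nat.zero_le _, Or.inl h1⟩
      · have h2 : ((degSeq G).take (S.card - 1)).sum < n := by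
          by_contra hlt
          have h3 : subT G ≤ S.card - 1 := Nat.sInf_le (not_lt.1 hlt)
          omega
        have hk : S.card - 1 ≤ (degSeq G).length := by
          rw [length_degSeq]
          omega
        rcases Nat.eq_zero_or_pos (S.card - 1) with h3 | h3
        · refine ⟨n, le_rfl, Or.inr ?_⟩
          rw [h3, bd_eq, map_sub_zero]
          · omega
          · intro a ha
            have h4 := (degSeq_perm G).mem_iff.1 ha
            rw [List.mem_ofFn] at h4
            obtain ⟨i, rfl⟩ := h4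
            have := G.degree_lt_card_verts i
            simp only [Fintype.card_fin] at this
            omega
        · obtain ⟨θ, hθ⟩ := take_sum_eq (degSeq_pairwise G) hk
          have h4 : θ ≤ (S.card - 1) * θ := Nat.le_mul_of_pos_left _ h3
          exact ⟨θ, by omega, Or.inr (by rw [bd_eq]; omega)⟩
    refine ⟨(S.toList.map (fun v : Fin n => (v : ℕ)), θ), ?_⟩
    simp only [vf, Bool.and_eq_true, decide_eq_true_eq, Bool.or_eq_true, List.all_eq_true,
      length_adjMatrix, List.length_map, Finset.length_toList]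
    refine ⟨(wf_iff _).2 ⟨n, G, rfl⟩, ?_, ⟨?_, hSn, hθn⟩, hθ⟩
    · rw [dom_iff]
      convert hS using 1
      ext v
      simp only [Finset.mem_filter, Finset.mem_univ, true_and, List.mem_map, Finset.mem_toList]
      constructor
      · rintro ⟨w, hw, hwv⟩
        rw [← Fin.ext hwv]
        exact hw
      · intro hv
        exact ⟨v, hv, rfl⟩
    · intro a ha
      obtain ⟨v, _, rfl⟩ := List.mem_map.1 ha
      exact v.isLt.le
  · rintro ⟨⟨l, θ⟩, hw⟩
    simp only [vf, Bool.and_eq_true, decide_eq_true_eq, Bool.or_eq_true, List.all_eq_true] at hw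
    obtain ⟨h1, h2, -, h3⟩ := hw
    obtain ⟨n, G, rfl⟩ := (wf_iff M).1 h1
    rw [length_adjMatrix] at h3
    have hS := (dom_iff G l).1 h2
    have h0 : NoIsolated G := fun v => by
      obtain ⟨w, _, hw⟩ := hS v
      exact ⟨w, hw⟩
    refine ⟨n, G, rfl, h0, le_antisymm ?_ (subT_le_gammaT G h0)⟩
    have h4 := (gammaT_le G hS).trans (card_filter_mem_le l)
    rcases h3 with h3 | h3
    · omega
    · refine h4.trans ?_
      rw [bd_eq] at h3
      have h5 := (take_sum_le (degSeq G) (l.length - 1) θ).trans_lt h3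
      have h6 := le_subT G h0 h5
      omega

attribute [local irreducible] me

theorem dg_poly {α : Type} [TEnc α] {M : α → List (List Bool)} {i : α → ℕ} (hM : NPC.Poly M)
    (hi : NPC.Poly i) : NPC.Poly (fun a => dg (M a) (i a)) := by
  unfold dg
  have h1 : NPC.Poly (fun a => List.range (M a).length) := (UPoly.length hM).range
  fun_prop

theorem vf_poly : NPC.Poly vf := by
  have hlen : NPC.Poly (fun x : List (List Bool) × (List ℕ × ℕ) => x.1.length) := by fun_prop
  have hr : NPC.Poly (fun x : List (List Bool) × (List ℕ × ℕ) => List.range x.1.length) :=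
    (UPoly.length (by fun_prop)).range
  unfold vf
  refine NPC.Poly.and (wf_poly.comp (by fun_prop)) (NPC.Poly.and ?_ (NPC.Poly.and ?_ ?_))
  · unfold dom
    refine NPC.Poly.all (l := fun x : List (List Bool) × (List ℕ × ℕ) => List.range x.1.length)
      (p := fun x i => x.2.1.any (fun a => decide (a < x.1.length) && me x.1 i a)) hr ?_
    refine NPC.Poly.any (l := fun x : (List (List Bool) × (List ℕ × ℕ)) × ℕ => x.1.2.1)
      (p := fun x a => decide (a < x.1.1.length) && me x.1.1 x.2 a) (by fun_prop) ?_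
    fun_prop
  · fun_prop
  · refine NPC.Poly.or (by fun_prop) ?_
    unfold bd
    have h1 : NPC.Poly (fun x : List (List Bool) × (List ℕ × ℕ) =>
        ((List.range x.1.length).map (fun i => dg x.1 i - x.2.2)).sum) := by
      refine NPC.Poly.sum (NPC.Poly.map (l := fun x : List (List Bool) × (List ℕ × ℕ) =>
        List.range x.1.length) (F := fun x i => dg x.1 i - x.2.2) hr ?_)
      exact NPC.Poly.sub (dg_poly (by fun_prop) (by fun_prop)) (by fun_prop)
    fun_prop

/-- certificates are short -/
theorem vf_short {M : List (List Bool)} {w : List ℕ × ℕ} (h : vf (M, w) = true) :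
    sz w ≤ (12 * Polynomial.X ^ 2 + 60 * Polynomial.X + 60 : Polynomial ℕ).eval (sz M) := by
  simp only [vf, Bool.and_eq_true, decide_eq_true_eq, Bool.or_eq_true, List.all_eq_true] at h
  obtain ⟨-, -, ⟨h1, h2, h3⟩, -⟩ := h
  have hsz : ∀ a ∈ w.1, sz a ≤ 4 * M.length + 4 := by
    intro a ha
    have h1' := sz_nat_le a
    have h2' := NPC.Poly.size_le_self a
    have h3' := h1 a ha
    omega
  have h5 := sz_le_length_mul w.1 _ hsz
  have h6 : sz w.2 ≤ 4 * M.length + 4 := by
    have h1 := sz_nat_le w.2
    have h2 := NPC.Poly.size_le_self w.2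
    omega
  have h7 : M.length ≤ sz M := (length_lt_sz M).le
  simp only [Polynomial.eval_add, Polynomial.eval_mul, Polynomial.eval_pow, Polynomial.eval_X,
    Polynomial.eval_ofNat]
  have h8 : sz w = sz w.1 + sz w.2 + 1 := sz_pair w.1 w.2
  have h9 : w.1.length * (4 * M.length + 4 + 1) ≤ sz M * (4 * sz M + 4 + 1) :=
    Nat.mul_le_mul (by omega) (by omega)
  rw [h8]
  nlinarith

/-- **TDS-EQ is in `NP`.** -/
theorem tdsEq_inNPP : InNPP TDSEq := by
  refine inNPP_of (R := vf) vf_poly (12 * Polynomial.X ^ 2 + 60 * Polynomial.X + 60) ?_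
  intro M
  rw [tds_iff_cert]
  exact exists_congr fun w => ⟨fun h => ⟨vf_short h, h⟩, fun h => h.2⟩

end Pool.Agent.NH87.TD
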