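import Pool.Agent.NH87.TD.Basic
import Pool.Agent.H671R2.PolyAuto
import Pool.Agent.H632R2.X3C

/-!
# The graph of an instance of exact cover by 3-sets
-/

namespace Pool.Agent.NH87.TD

open Pool.Agent.NPC Pool.Agent.NPC.R671 Pool.Agent.NPC.H632

section Deg

variable {Λ : Type} (vs : List Λ) (ad : Λ → Λ → Bool) (hs : ∀ a b, ad a b = ad b a)
  (hi : ∀ a, ad a a = false)

open Classical in
theorem degree_le_of (hn : vs.Nodup) (i : Fin vs.length) (l : List Λ)
    (h : ∀ b ∈ vs, ad vs[i] b = true → b ∈ l) : (listGraph vs ad hs hi).degree i ≤ l.length := by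
  rw [← SimpleGraph.card_neighborFinset_eq_degree]
  have h1 : ((listGraph vs ad hs hi).neighborFinset i).image (fun j : Fin vs.length => vs[j]) ⊆
      l.toFinset := by
    intro b hb
    obtain ⟨j, hj, rfl⟩ := Finset.mem_image.1 hb
    rw [SimpleGraph.mem_neighborFinset] at hj
    exact List.mem_toFinset.2 (h _ (List.getElem_mem _) hj)
  have h2 := Finset.card_le_card h1
  have hinj : Function.Injective (fun j : Fin vs.length => vs[j]) := fun i j hij =>
    Fin.ext ((List.Nodup.getElem_inj_iff hn).1 hij)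
  rw [Finset.card_image_of_injective _ hinj] at h2
  exact h2.trans (List.toFinset_card_le _)

open Classical in
theorem le_degree_of (i : Fin vs.length) (l : List Λ) (hl : l.Nodup)
    (h : ∀ b ∈ l, b ∈ vs ∧ ad vs[i] b = true) :
    l.length ≤ (listGraph vs ad hs hi).degree i := by
  rw [← SimpleGraph.card_neighborFinset_eq_degree]
  have h1 : l.toFinset ⊆
      ((listGraph vs ad hs hi).neighborFinset i).image (fun j : Fin vs.length => vs[j]) := by
    intro b hb
    obtain ⟨h1, h2⟩ := h b (List.mem_toFinset.1 hb)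
    obtain ⟨j, hj, rfl⟩ := List.getElem_of_mem h1
    refine Finset.mem_image.2 ⟨⟨j, hj⟩, ?_, rfl⟩
    rw [SimpleGraph.mem_neighborFinset]
    exact h2
  have h2 := Finset.card_le_card h1
  rw [List.toFinset_card_of_nodup hl] at h2
  exact h2.trans Finset.card_image_le

open Classical in
/-- the vertices whose labels are in a list -/
noncomputable def sel (l : List Λ) : Finset (Fin vs.length) :=
  Finset.univ.filter fun i => vs[i] ∈ l

theorem mem_sel {l : List Λ} {i : Fin vs.length} : i ∈ sel vs l ↔ vs[i] ∈ l := by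
  simp [sel]

theorem card_sel_le (hn : vs.Nodup) (l : List Λ) : (sel vs l).card ≤ l.length := by
  classical
  have h1 : (sel vs l).image (fun j : Fin vs.length => vs[j]) ⊆ l.toFinset := by
    intro b hb
    obtain ⟨j, hj, rfl⟩ := Finset.mem_image.1 hb
    exact List.mem_toFinset.2 ((mem_sel vs).1 hj)
  have h2 := Finset.card_le_card h1
  have hinj : Function.Injective (fun j : Fin vs.length => vs[j]) := fun i j hij =>
    Fin.ext ((List.Nodup.getElem_inj_iff hn).1 hij)
  rw [Finset.card_image_of_injective _ hinj] at h2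
  exact h2.trans (List.toFinset_card_le _)

theorem card_sel (hn : vs.Nodup) (l : List Λ) (hl : l.Nodup) (h : ∀ b ∈ l, b ∈ vs) :
    (sel vs l).card = l.length := by
  classical
  refine le_antisymm (card_sel_le vs hn l) ?_
  have h1 : l.toFinset ⊆ (sel vs l).image (fun j : Fin vs.length => vs[j]) := by
    intro b hb
    obtain ⟨j, hj, rfl⟩ := List.getElem_of_mem (h b (List.mem_toFinset.1 hb))
    exact Finset.mem_image.2 ⟨⟨j, hj⟩, (mem_sel vs).2 (List.mem_toFinset.1 hb), rfl⟩
  have h2 := Finset.card_le_card h1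
  rw [List.toFinset_card_of_nodup hl] at h2
  exact h2.trans Finset.card_image_le

end Deg

/-- labels of vertices: kind, two numbers, a triple. Kind `0` is the hub, `1` the leaf, `2` the
vertices of the triples and `3` the copies of the elements. -/
abbrev Lab : Type := ℕ × ℕ × ℕ × (ℕ × ℕ × ℕ)

/-- adjacency of labels, one direction -/
def ad0 (a b : Lab) : Bool :=
  (decide (a.1 = 0) && (decide (b.1 = 1) || decide (b.1 = 2))) ||
  ((decide (a.1 = 2) && decide (b.1 = 3)) && (decide (b.2.1 = a.2.2.2.1) ||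
    (decide (b.2.1 = a.2.2.2.2.1) || decide (b.2.1 = a.2.2.2.2.2))))

/-- adjacency of labels -/
def ad (a b : Lab) : Bool := ad0 a b || ad0 b a

theorem ad_symm (a b : Lab) : ad a b = ad b a := by
  unfold ad
  exact Bool.or_comm _ _

theorem ad_irrefl (a : Lab) : ad a a = false := by
  rw [← Bool.not_eq_true]
  simp only [ad, ad0, Bool.or_eq_true, Bool.and_eq_true, decide_eq_true_eq]
  omega

/-- instances -/
abbrev Inst : Type := List (ℕ × ℕ × ℕ) × ℕ

/-- the hub -/
def hub : Lab := (0, 0, 0, 0, 0, 0)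
/-- the leaf -/
def leaf : Lab := (1, 0, 0, 0, 0, 0)

/-- the vertices of the triples -/
def ts (S : List (ℕ × ℕ × ℕ)) : List Lab := S.zipIdx.map fun p => (2, p.2, 0, p.1)

/-- the copies of the elements -/
def es (q m : ℕ) : List Lab :=
  ((List.range (3 * q)) ×ˢ (List.range m)).map fun p => (3, p.1, p.2, 0, 0, 0)

/-- the labels -/
def vs (I : Inst) : List Lab := hub :: leaf :: (ts I.1 ++ es I.2 I.1.length)

/-- the graph of an instance -/
def gr (I : Inst) : SimpleGraph (Fin (vs I).length) := listGraph (vs I) ad ad_symm ad_irrefl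

theorem mem_ts {S : List (ℕ × ℕ × ℕ)} {z : Lab} :
    z ∈ ts S ↔ ∃ j t, S[j]? = some t ∧ z = (2, j, 0, t) := by
  unfold ts
  rw [List.mem_map]
  constructor
  · rintro ⟨⟨t, j⟩, h, rfl⟩
    exact ⟨j, t, List.mem_zipIdx_iff_getElem?.1 h, rfl⟩
  · rintro ⟨j, t, h, rfl⟩
    exact ⟨(t, j), List.mem_zipIdx_iff_getElem?.2 h, rfl⟩

theorem mem_es {q m : ℕ} {z : Lab} :
    z ∈ es q m ↔ ∃ x b, x < 3 * q ∧ b < m ∧ z = (3, x, b, 0, 0, 0) := by
  unfold es
  rw [List.mem_map]
  constructor
  · rintro ⟨⟨x, b⟩, h, rfl⟩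
    rw [List.mem_product, List.mem_range, List.mem_range] at h
    exact ⟨x, b, h.1, h.2, rfl⟩
  · rintro ⟨x, b, h1, h2, rfl⟩
    exact ⟨(x, b), by simp [h1, h2], rfl⟩

theorem mem_vs {I : Inst} {z : Lab} :
    z ∈ vs I ↔ z = hub ∨ z = leaf ∨ z ∈ ts I.1 ∨ z ∈ es I.2 I.1.length := by
  simp [vs]

theorem length_ts (S : List (ℕ × ℕ × ℕ)) : (ts S).length = S.length := by simp [ts]

theorem length_es (q m : ℕ) : (es q m).length = 3 * q * m := by
  simp [es, List.length_product]

theorem length_vs (I : Inst) : (vs I).length = 2 + I.1.length + 3 * I.2 * I.1.length := by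
  simp [vs, length_ts, length_es]
  omega

theorem nodup_ts (S : List (ℕ × ℕ × ℕ)) : (ts S).Nodup := by
  unfold ts
  refine List.Nodup.map ?_ ?_
  · rintro ⟨t, j⟩ ⟨t', j'⟩ h
    simp only [Prod.mk.injEq] at h
    obtain ⟨-, rfl, -, rfl⟩ := h
    rfl
  · refine List.Nodup.of_map Prod.snd ?_
    rw [List.zipIdx_map_snd]
    exact List.nodup_range' 

theorem nodup_es (q m : ℕ) : (es q m).Nodup := by
  unfold es
  refine List.Nodup.map ?_ (List.nodup_range.product List.nodup_range)
  rintro ⟨t, j⟩ ⟨t', j'⟩ h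
  simp only [Prod.mk.injEq, true_and, and_true] at h
  obtain ⟨rfl, rfl⟩ := h
  rfl

theorem nodup_vs (I : Inst) : (vs I).Nodup := by
  unfold vs
  rw [List.nodup_cons, List.nodup_cons, List.nodup_append]
  refine ⟨?_, ?_, nodup_ts _, nodup_es _ _, ?_⟩
  · intro h
    rw [List.mem_cons, List.mem_append, mem_ts, mem_es] at h
    rcases h with h | ⟨j, t, h, h'⟩ | ⟨x, b, h, h', h''⟩
    · simp [hub, leaf] at h
    · simp [hub] at h'
    · simp [hub] at h''
  · intro h
    rw [List.mem_append, mem_ts, mem_es] at h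
    rcases h with ⟨j, t, h, h'⟩ | ⟨x, b, h, h', h''⟩
    · simp [leaf] at h'
    · simp [leaf] at h''
  · intro a ha b hb hab
    subst hab
    rw [mem_ts] at ha
    rw [mem_es] at hb
    obtain ⟨j, t, h, rfl⟩ := ha
    obtain ⟨x, b, h, h', h''⟩ := hb
    simp at h''

/-- the neighbours of the vertex of a triple -/
def nt (t : ℕ × ℕ × ℕ) (m : ℕ) : List Lab :=
  hub :: ((el t) ×ˢ (List.range m)).map fun p => (3, p.1, p.2, 0, 0, 0)

theorem length_nt (t : ℕ × ℕ × ℕ) (m : ℕ) : (nt t m).length = 3 * m + 1 := by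
  simp [nt, el]
  omega

theorem mem_nt {t : ℕ × ℕ × ℕ} {m : ℕ} {z : Lab} :
    z ∈ nt t m ↔ z = hub ∨ ∃ x b, x ∈ el t ∧ b < m ∧ z = (3, x, b, 0, 0, 0) := by
  unfold nt
  rw [List.mem_cons, List.mem_map]
  refine or_congr Iff.rfl ?_
  constructor
  · rintro ⟨⟨x, b⟩, h, rfl⟩
    rw [List.mem_product, List.mem_range] at h
    exact ⟨x, b, h.1, h.2, rfl⟩
  · rintro ⟨x, b, h1, h2, rfl⟩
    exact ⟨(x, b), by simp [h1, h2], rfl⟩

theorem nodup_nt {t : ℕ × ℕ × ℕ} (ht : (el t).Nodup) (m : ℕ) : (nt t m).Nodup := by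
  unfold nt
  rw [List.nodup_cons]
  constructor
  · intro h
    rw [List.mem_map] at h
    obtain ⟨p, _, h⟩ := h
    simp [hub] at h
  · refine List.Nodup.map ?_ (ht.product List.nodup_range)
    rintro ⟨t, j⟩ ⟨t', j'⟩ h
    simp only [Prod.mk.injEq, true_and, and_true] at h
    obtain ⟨rfl, rfl⟩ := h
    rfl

/-! ### adjacency -/

theorem ad_hub {b : Lab} : ad hub b = true ↔ b.1 = 1 ∨ b.1 = 2 := by
  simp [ad, ad0, hub]

theorem ad_leaf {b : Lab} : ad leaf b = true ↔ b.1 = 0 := by
  simp [ad, ad0, leaf]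

theorem ad_t {j : ℕ} {t : ℕ × ℕ × ℕ} {b : Lab} :
    ad (2, j, 0, t) b = true ↔ b.1 = 0 ∨ (b.1 = 3 ∧ b.2.1 ∈ el t) := by
  simp [ad, ad0, el]
  omega

theorem ad_e {x c : ℕ} {b : Lab} :
    ad (3, x, c, 0, 0, 0) b = true ↔ b.1 = 2 ∧ x ∈ el b.2.2.2 := by
  simp [ad, ad0, el]

variable {I : Inst}

open Classical in
theorem degree_le (hI : X3CPr I) (i : Fin (vs I).length) :
    (gr I).degree i ≤ 3 * I.1.length + 1 := by
  have hq := hI.2.1
  have hm := hI.2.2
  rcases mem_vs.1 (List.getElem_mem i.isLt) with h | h | h | h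
  · -- the hub
    refine (degree_le_of (vs I) ad ad_symm ad_irrefl (nodup_vs I) i (leaf :: ts I.1) ?_).trans ?_
    · intro b hb hab
      change ad ((vs I)[(i : ℕ)]) b = true at hab
      rw [h, ad_hub] at hab
      rcases mem_vs.1 hb with rfl | rfl | hb | hb
      · simp [hub] at hab
      · exact List.mem_cons_self ..
      · exact List.mem_cons_of_mem _ hb
      · obtain ⟨x, c, _, _, rfl⟩ := mem_es.1 hb
        simp at hab
    · rw [List.length_cons, length_ts]
      omega
  · -- the leaf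
    refine (degree_le_of (vs I) ad ad_symm ad_irrefl (nodup_vs I) i [hub] ?_).trans ?_
    · intro b hb hab
      change ad ((vs I)[(i : ℕ)]) b = true at hab
      rw [h, ad_leaf] at hab
      rcases mem_vs.1 hb with rfl | rfl | hb | hb
      · simp
      · simp [leaf] at hab
      · obtain ⟨j, t, _, rfl⟩ := mem_ts.1 hb
        simp at hab
      · obtain ⟨x, c, _, _, rfl⟩ := mem_es.1 hb
        simp at hab
    · simp
  · -- a triple
    obtain ⟨j, t, hj, h'⟩ := mem_ts.1 h
    refine (degree_le_of (vs I) ad ad_symm ad_irrefl (nodup_vs I) i (nt t I.1.length) ?_).trans ?_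
    · intro b hb hab
      change ad ((vs I)[(i : ℕ)]) b = true at hab
      rw [h', ad_t] at hab
      rw [mem_nt]
      rcases mem_vs.1 hb with rfl | rfl | hb | hb
      · exact Or.inl rfl
      · simp [leaf] at hab
      · obtain ⟨j, t, _, rfl⟩ := mem_ts.1 hb
        simp at hab
      · obtain ⟨x, c, hx, hc, rfl⟩ := mem_es.1 hb
        simp at hab
        exact Or.inr ⟨x, c, hab, hc, rfl⟩
    · rw [length_nt]
  · -- an element
    obtain ⟨x, c, _, _, h'⟩ := mem_es.1 h
    refine (degree_le_of (vs I) ad ad_symm ad_irrefl (nodup_vs I) i (ts I.1) ?_).trans ?_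
    · intro b hb hab
      change ad ((vs I)[(i : ℕ)]) b = true at hab
      rw [h', ad_e] at hab
      rcases mem_vs.1 hb with rfl | rfl | hb | hb
      · simp [hub] at hab
      · simp [leaf] at hab
      · exact hb
      · obtain ⟨x, c, hx, hc, rfl⟩ := mem_es.1 hb
        simp at hab
    · rw [length_ts]
      omega

theorem sub_le (hI : X3CPr I) : ((degSeq (gr I)).take I.2).sum < (vs I).length := by
  classical
  have h1 := take_sum_le (degSeq (gr I)) I.2 (3 * I.1.length + 1)
  rw [map_sub_zero, Nat.add_zero] at h1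
  · have hv := length_vs I
    have hq := hI.2.1
    have hm := hI.2.2
    have e : I.2 * (3 * I.1.length + 1) = 3 * I.2 * I.1.length + I.2 := by ring
    omega
  · intro a ha
    have h2 := (degSeq_perm (gr I)).mem_iff.1 ha
    rw [List.mem_ofFn] at h2
    obtain ⟨i, rfl⟩ := h2
    exact degree_le hI i

theorem le_sub (hI : X3CPr I) : (vs I).length ≤ ((degSeq (gr I)).take (I.2 + 1)).sum := by
  classical
  have hq := hI.2.1
  have hm := hI.2.2
  -- the hub and `q` triples
  set l : List Lab := hub :: (ts I.1).take I.2 with hl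
  have hsub : ∀ b ∈ l, b ∈ vs I := by
    intro b hb
    rcases List.mem_cons.1 hb with rfl | hb
    · exact mem_vs.2 (Or.inl rfl)
    · exact mem_vs.2 (Or.inr (Or.inr (Or.inl (List.mem_of_mem_take hb))))
  have hnd : l.Nodup := by
    rw [hl, List.nodup_cons]
    refine ⟨fun h => ?_, (nodup_ts _).sublist (List.take_sublist _ _)⟩
    obtain ⟨j, t, _, h'⟩ := mem_ts.1 (List.mem_of_mem_take h)
    simp [hub] at h'
  have hlen : l.length = I.2 + 1 := by
    rw [hl, List.length_cons, List.length_take, length_ts]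
    omega
  have hc := card_sel (vs I) (nodup_vs I) l hnd hsub
  have h1 := sum_le_take (gr I) (sel (vs I) l)
  rw [hc, hlen] at h1
  refine le_trans ?_ h1
  -- split off the hub
  obtain ⟨i0, hi0, hi0'⟩ := List.getElem_of_mem (hsub hub (List.mem_cons_self ..))
  have hm0 : (⟨i0, hi0⟩ : Fin (vs I).length) ∈ sel (vs I) l := by
    rw [mem_sel]
    change (vs I)[i0] ∈ l
    rw [hi0']
    exact List.mem_cons_self ..
  rw [← Finset.add_sum_erase _ _ hm0]
  have hd0 : I.1.length + 1 ≤ (gr I).degree ⟨i0, hi0⟩ := by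
    have := le_degree_of (vs I) ad ad_symm ad_irrefl ⟨i0, hi0⟩ (leaf :: ts I.1) (by
      rw [List.nodup_cons]
      refine ⟨fun h => ?_, nodup_ts _⟩
      obtain ⟨j, t, _, h'⟩ := mem_ts.1 h
      simp [leaf] at h') (by
      intro b hb
      change b ∈ vs I ∧ ad ((vs I)[i0]) b = true
      rw [hi0', ad_hub]
      rcases List.mem_cons.1 hb with rfl | hb
      · exact ⟨mem_vs.2 (Or.inr (Or.inl rfl)), Or.inl rfl⟩
      · refine ⟨mem_vs.2 (Or.inr (Or.inr (Or.inl hb))), Or.inr ?_⟩
        obtain ⟨j, t, _, rfl⟩ := mem_ts.1 hb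
        rfl)
    rw [List.length_cons, length_ts] at this
    exact this
  have hd1 : ∀ i ∈ (sel (vs I) l).erase ⟨i0, hi0⟩, 3 * I.1.length + 1 ≤ (gr I).degree i := by
    intro i hi
    rw [Finset.mem_erase, mem_sel] at hi
    obtain ⟨hne, hi⟩ := hi
    have hi' : (vs I)[(i : ℕ)] ∈ ts I.1 := by
      rcases List.mem_cons.1 hi with h | h
      · exfalso
        apply hne
        apply Fin.ext
        have : (vs I)[(i : ℕ)] = (vs I)[i0] := by rw [hi0']; exact h
        exact (List.Nodup.getElem_inj_iff (nodup_vs I)).1 this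
      · exact List.mem_of_mem_take h
    obtain ⟨j, t, hj, h'⟩ := mem_ts.1 hi'
    have ht := hI.1 t (List.mem_of_getElem? hj)
    have := le_degree_of (vs I) ad ad_symm ad_irrefl i (nt t I.1.length)
      (nodup_nt ht.1 _) (by
      intro b hb
      change b ∈ vs I ∧ ad ((vs I)[(i : ℕ)]) b = true
      rw [h', ad_t]
      rcases mem_nt.1 hb with rfl | ⟨x, c, hx, hc, rfl⟩
      · exact ⟨mem_vs.2 (Or.inl rfl), Or.inl rfl⟩
      · exact ⟨mem_vs.2 (Or.inr (Or.inr (Or.inr (mem_es.2 ⟨x, c, ht.2 x hx, hc, rfl⟩)))),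
          Or.inr ⟨rfl, hx⟩⟩)
    rw [length_nt] at this
    exact this
  have h2 := Finset.card_nsmul_le_sum _ _ _ hd1
  rw [Finset.card_erase_of_mem hm0, hc, hlen, smul_eq_mul] at h2
  have hv := length_vs I
  have e : (I.2 + 1 - 1) * (3 * I.1.length + 1) = 3 * I.2 * I.1.length + I.2 := by
    rw [Nat.add_sub_cancel]; ring
  rw [e] at h2
  refine le_trans ?_ (Nat.add_le_add hd0 h2)
  omega

theorem exists_index {l : List Lab} {z : Lab} (h : z ∈ l) : ∃ i : Fin l.length, l[i] = z := by
  obtain ⟨i, hi, h'⟩ := List.getElem_of_mem h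
  exact ⟨⟨i, hi⟩, h'⟩

theorem tds_of_cover (hI : X3CPr I) (h : X3C I) : ∃ T, IsTDS (gr I) T ∧ T.card ≤ I.2 + 1 := by
  classical
  obtain ⟨C, hC, hp⟩ := h
  have hlen := X3C_length hp
  have hk : ∀ t ∈ C, ∃ k : ℕ, I.1[k]? = some t := by
    intro t ht
    obtain ⟨k, hk, hk'⟩ := List.getElem_of_mem (hC t ht)
    exact ⟨k, by rw [List.getElem?_eq_getElem hk, hk']⟩
  choose! f hf using hk
  refine ⟨sel (vs I) (hub :: C.map fun t => (2, f t, 0, t)), ?_, ?_⟩
  · intro i
    have key : ∀ t ∈ C, ∃ j : Fin (vs I).length, (vs I)[j] = (2, f t, 0, t) :=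
      fun t ht => exists_index (mem_vs.2 (Or.inr (Or.inr (Or.inl (mem_ts.2
        ⟨f t, t, hf t ht, rfl⟩)))))
    rcases mem_vs.1 (List.getElem_mem i.isLt) with h | h | h | h
    · have hq := hI.2.1
      have hne : C ≠ [] := by
        rintro rfl
        simp at hlen
        omega
      obtain ⟨t, ht⟩ := List.exists_mem_of_ne_nil C hne
      obtain ⟨j, hj⟩ := key t ht
      refine ⟨j, (mem_sel _).2 ?_, ?_⟩
      · rw [hj]
        exact List.mem_cons_of_mem _ (List.mem_map_of_mem ht)
      · change ad ((vs I)[(i : ℕ)]) ((vs I)[j]) = true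
        rw [h, hj]
        rfl
    · obtain ⟨j, hj⟩ := exists_index (mem_vs.2 (Or.inl rfl) : hub ∈ vs I)
      refine ⟨j, (mem_sel _).2 (by rw [hj]; exact List.mem_cons_self ..), ?_⟩
      change ad ((vs I)[(i : ℕ)]) ((vs I)[j]) = true
      rw [h, hj]
      rfl
    · obtain ⟨j, hj⟩ := exists_index (mem_vs.2 (Or.inl rfl) : hub ∈ vs I)
      obtain ⟨k, t, _, h'⟩ := mem_ts.1 h
      refine ⟨j, (mem_sel _).2 (by rw [hj]; exact List.mem_cons_self ..), ?_⟩
      change ad ((vs I)[(i : ℕ)]) ((vs I)[j]) = true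
      rw [h', hj, ad_t]
      exact Or.inl rfl
    · obtain ⟨x, c, hx, _, h'⟩ := mem_es.1 h
      obtain ⟨t, ht, hxt⟩ := List.mem_flatMap.1 (hp.mem_iff.2 (List.mem_range.2 hx))
      obtain ⟨j, hj⟩ := key t ht
      refine ⟨j, (mem_sel _).2 ?_, ?_⟩
      · rw [hj]
        exact List.mem_cons_of_mem _ (List.mem_map_of_mem ht)
      · change ad ((vs I)[(i : ℕ)]) ((vs I)[j]) = true
        rw [h', hj, ad_e]
        exact ⟨rfl, hxt⟩
  · refine (card_sel_le _ (nodup_vs I) _).trans ?_
    simp [hlen]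

theorem cover_of_tds (hI : X3CPr I) {T : Finset (Fin (vs I).length)} (hT : IsTDS (gr I) T)
    (hc : T.card ≤ I.2 + 1) : X3C I := by
  classical
  have hq := hI.2.1
  have hm := hI.2.2
  -- the hub is in `T`
  obtain ⟨i0, hi0⟩ := exists_index (mem_vs.2 (Or.inl rfl) : hub ∈ vs I)
  have h0 : i0 ∈ T := by
    obtain ⟨i1, hi1⟩ := exists_index (mem_vs.2 (Or.inr (Or.inl rfl)) : leaf ∈ vs I)
    obtain ⟨w, hw, hw'⟩ := hT i1
    change ad ((vs I)[i1]) ((vs I)[w]) = true at hw'
    rw [hi1, ad_leaf] at hw'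
    have h2 : (vs I)[w] = hub := by
      rcases mem_vs.1 (List.getElem_mem w.isLt) with h | h | h | h
      · exact h
      · change ((vs I)[(w : ℕ)]).1 = 0 at hw'
        rw [h] at hw'
        simp [leaf] at hw'
      · obtain ⟨k, t, _, h'⟩ := mem_ts.1 h
        change ((vs I)[(w : ℕ)]).1 = 0 at hw'
        rw [h'] at hw'
        simp at hw'
      · obtain ⟨x, c, hx, _, h'⟩ := mem_es.1 h
        change ((vs I)[(w : ℕ)]).1 = 0 at hw'
        rw [h'] at hw'
        simp at hw'
    have h3 : w = i0 := Fin.ext ((List.Nodup.getElem_inj_iff (nodup_vs I)).1 (h2.trans hi0.symm))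
    rw [← h3]
    exact hw
  set C : Finset (ℕ × ℕ × ℕ) :=
    ((T.erase i0).filter fun i => (vs I)[i].1 = 2).image fun i => (vs I)[i].2.2.2 with hC
  have hcard : C.card ≤ I.2 := by
    refine Finset.card_image_le.trans ((Finset.card_filter_le _ _).trans ?_)
    rw [Finset.card_erase_of_mem h0]
    omega
  have hCS : ∀ t ∈ C, t ∈ I.1 := by
    intro t ht
    obtain ⟨i, hi, rfl⟩ := Finset.mem_image.1 ht
    obtain ⟨_, hi⟩ := Finset.mem_filter.1 hi
    change ((vs I)[(i : ℕ)]).1 = 2 at hi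
    change ((vs I)[(i : ℕ)]).2.2.2 ∈ I.1
    rcases mem_vs.1 (List.getElem_mem i.isLt) with h | h | h | h
    · rw [h] at hi
      simp [hub] at hi
    · rw [h] at hi
      simp [leaf] at hi
    · obtain ⟨k, t, hk, h'⟩ := mem_ts.1 h
      rw [h']
      exact List.mem_of_getElem? hk
    · obtain ⟨x, c, hx, _, h'⟩ := mem_es.1 h
      rw [h'] at hi
      simp at hi
  have hcov : ∀ x < 3 * I.2, ∃ t ∈ C, x ∈ el t := by
    intro x hx
    obtain ⟨i, hi⟩ := exists_index (mem_vs.2 (Or.inr (Or.inr (Or.inr (mem_es.2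
      ⟨x, 0, hx, by omega, rfl⟩)))) : (3, x, 0, 0, 0, 0) ∈ vs I)
    obtain ⟨w, hw, hw'⟩ := hT i
    change ad ((vs I)[i]) ((vs I)[w]) = true at hw'
    rw [hi, ad_e] at hw'
    refine ⟨(vs I)[w].2.2.2, Finset.mem_image.2 ⟨w, Finset.mem_filter.2
      ⟨Finset.mem_erase.2 ⟨?_, hw⟩, hw'.1⟩, rfl⟩, hw'.2⟩
    rintro rfl
    rw [hi0] at hw'
    simp [hub] at hw'
  refine ⟨C.toList, fun t ht => hCS t (Finset.mem_toList.1 ht), ?_⟩
  have h1 : List.range (3 * I.2) ⊆ C.toList.flatMap el := by
    intro x hx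
    obtain ⟨t, ht, hxt⟩ := hcov x (List.mem_range.1 hx)
    exact List.mem_flatMap.2 ⟨t, Finset.mem_toList.2 ht, hxt⟩
  have h2 : (C.toList.flatMap el).length = 3 * C.card := by
    rw [List.length_flatMap]
    have : (C.toList.map fun t => (el t).length) = List.replicate C.card 3 := by
      rw [List.eq_replicate_iff]
      refine ⟨by simp, ?_⟩
      intro b hb
      obtain ⟨t, _, rfl⟩ := List.mem_map.1 hb
      rfl
    rw [this]
    simp [Nat.mul_comm]
  have h3 := List.subperm_of_subset List.nodup_range h1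
  exact (h3.perm_of_length_le (by rw [h2, List.length_range]; omega)).symm

theorem gr_correct (hI : X3CPr I) :
    X3C I ↔ NoIsolated (gr I) ∧ gammaT (gr I) = subT (gr I) := by
  constructor
  · intro h
    obtain ⟨T, hT, hc⟩ := tds_of_cover hI h
    have h0 : NoIsolated (gr I) := fun v => by
      obtain ⟨w, _, hw⟩ := hT v
      exact ⟨w, hw⟩
    refine ⟨h0, le_antisymm ?_ (subT_le_gammaT _ h0)⟩
    exact (gammaT_le _ hT).trans (hc.trans (le_subT _ h0 (sub_le hI)))
  · rintro ⟨h0, h⟩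
    obtain ⟨T, hT, hc⟩ := exists_tds _ h0
    refine cover_of_tds hI hT ?_
    rw [hc, h]
    exact Nat.sInf_le (le_sub hI)

/-! ### Polynomial time -/

theorem ad0_poly {α : Type} [TEnc α] {a b : α → Lab} (ha : NPC.Poly a) (hb : NPC.Poly b) :
    NPC.Poly (fun x => ad0 (a x) (b x)) := by
  unfold ad0
  fun_prop

/-- the instance with a bounded number -/
def cut (I : Inst) : Inst := (I.1, min I.2 I.1.length)

theorem cut_eq (hI : X3CPr I) : cut I = I := by
  unfold cut
  rw [min_eq_left hI.2.2]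

theorem vs_poly : NPC.Poly (fun I : Inst => vs (cut I)) := by
  have hm : NPC.Poly (fun I : Inst => 3 * min I.2 I.1.length) := by fun_prop
  have h3 : UPoly (fun I : Inst => 3 * I.1.length) :=
    UPoly.mul (UPoly.const 3) (UPoly.length (by fun_prop))
  have h1 : NPC.Poly (fun I : Inst => List.range (3 * min I.2 I.1.length)) :=
    (UPoly.of_le hm h3 (fun I => Nat.mul_le_mul_left _ (min_le_right _ _))).range
  have h2 : NPC.Poly (fun I : Inst => List.range I.1.length) :=
    (UPoly.length (l := fun I : Inst => I.1) (by fun_prop)).range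
  unfold vs ts es cut hub leaf
  fun_prop

theorem gr_poly : NPC.Poly (fun I : Inst => adjMatrix (gr (cut I))) := by
  have h1 : ∀ I : Inst, adjMatrix (gr (cut I)) =
      (vs (cut I)).map (fun u => (vs (cut I)).map (fun w => ad u w)) :=
    fun φ => adjMatrix_listGraph _ _ _ _
  have h2 : NPC.Poly (fun I : Inst =>
      (vs (cut I)).map (fun u => (vs (cut I)).map (fun w => ad u w))) := by
    refine NPC.Poly.map (l := fun I : Inst => vs (cut I))
      (F := fun I u => (vs (cut I)).map (fun w => ad u w)) vs_poly ?_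
    refine NPC.Poly.map (l := fun x : Inst × Lab => vs (cut x.1))
      (F := fun x w => ad x.2 w) (vs_poly.comp (NPC.Poly.fst NPC.Poly.id)) ?_
    unfold ad
    exact NPC.Poly.or (ad0_poly (by fun_prop) (by fun_prop)) (ad0_poly (by fun_prop) (by fun_prop))
  exact h2.congr fun φ => (h1 φ).symm

/-- **TDS-EQ is `NP`-hard.** -/
theorem tdsEq_npHard : NPHardP TDSEq := by
  have key : HardPr (fun _ => True) TDSEq := by
    refine hardPr_X3C.trans gr_poly (fun _ _ => trivial) ?_
    intro I hI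
    rw [cut_eq hI, gr_correct hI]
    constructor
    · intro h
      exact ⟨_, _, rfl, h⟩
    · rintro ⟨n', G', h3, h4⟩
      have h5 : n' = (vs I).length := by
        have := congrArg List.length h3
        simpa [adjMatrix] using this
      subst h5
      rw [← adjMatrix_inj h3]
      exact h4
  exact key.toHardI.toNPHardP

end Pool.Agent.NH87.TD
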